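import Pool.Agent.Y667.BK.Main
import Pool.Agent.TH841.NF.ShaN
import Pool.Agent.TH841.SH.Kum

/-!
# The Bloch–Kato Selmer group `H¹_f(K, V₂ E)` of an elliptic curve over a number field
-/

set_option autoImplicit false

namespace Pool.Agent.Y667.BKK

open WeierstrassCurve Pool.Agent.TH841.SH.D
open Pool.Agent.Y667.BK (PSeq IsV Coch2 IsCocV IsCobV LocKum cocV_zero cocV_add cocV_neg locKum_zero
  locKum_add locKum_neg cobV Fix lift)

variable {F : Type} [Field F] [NumberField F]

/-- `c` is a continuous cocycle with values in `V₂(W)` whose restriction to the completions at all the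
places of `F` is in the image of the local Kummer map -/
def IsSelV (W : WeierstrassCurve F) (c : Coch2 W) : Prop :=
  IsCocV W c ∧
  (∀ v : IsDedekindDomain.HeightOneSpectrum (NumberField.RingOfIntegers F),
    LocKum W (v.adicCompletion F) c) ∧
  ∀ v : NumberField.InfinitePlace F, LocKum W v.Completion c

/-- the group of the continuous cocycles with values in `V₂(W)` that satisfy the local conditions -/
def selCocV (W : WeierstrassCurve F) : AddSubgroup (Coch2 W) where
  carrier := {c | IsSelV W c}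
  zero_mem' := ⟨cocV_zero W, fun _ => locKum_zero W _, fun _ => locKum_zero W _⟩
  add_mem' := fun ⟨a1, a2, a3⟩ ⟨b1, b2, b3⟩ =>
    ⟨cocV_add a1 b1, fun v => locKum_add (a2 v) (b2 v), fun v => locKum_add (a3 v) (b3 v)⟩
  neg_mem' := fun ⟨a1, a2, a3⟩ =>
    ⟨cocV_neg a1, fun v => locKum_neg (a2 v), fun v => locKum_neg (a3 v)⟩

/-- The Bloch–Kato Selmer group `H¹_f(F, V₂(W))`: the classes of continuous cocycles with values in
`V₂(W)` whose restriction to the completion at every place is in the image of the Kummer map. -/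
def H1f (W : WeierstrassCurve F) : Type := selCocV W ⧸ (cobV W).addSubgroupOf (selCocV W)

noncomputable instance H1f.group (W : WeierstrassCurve F) : AddCommGroup (H1f W) :=
  @QuotientAddGroup.Quotient.addCommGroup (selCocV W) _ ((cobV W).addSubgroupOf (selCocV W))

omit [NumberField F] in
lemma act_some (W : WeierstrassCurve F) {K L : Type} [Field K] [Field L] [Algebra F K]
    [Algebra F L] (φ : K →ₐ[F] L) {x y : K} (h : (W.baseChange K).toAffine.Nonsingular x y) :
    act W φ (.some x y h) =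
      .some (φ x) (φ y) ((Affine.baseChange_nonsingular W φ.injective ..).mpr h) := rfl

open scoped Classical in
/-- fixed points are rational -/
lemma exists_rat (W : WeierstrassCurve F) :
    ∃ j : W.toAffine.Point →+ Pt W (AlgebraicClosure F),
    Function.Injective j ∧ (∀ (σ : Gal F) (P : W.toAffine.Point),
      act W σ.toAlgHom (j P) = j P) ∧
    ∀ P : Pt W (AlgebraicClosure F), (∀ σ : Gal F, act W σ.toAlgHom P = P) → ∃ q, j q = P := by
  suffices H : ∀ W' : WeierstrassCurve F, W' = W.baseChange F →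
      ∃ j : W'.toAffine.Point →+ Pt W (AlgebraicClosure F), Function.Injective j ∧
      (∀ (σ : Gal F) (P : W'.toAffine.Point), act W σ.toAlgHom (j P) = j P) ∧
      ∀ P : Pt W (AlgebraicClosure F), (∀ σ : Gal F, act W σ.toAlgHom P = P) → ∃ q, j q = P by
    apply H W
    apply WeierstrassCurve.ext <;> simp [WeierstrassCurve.baseChange]
  rintro W' rfl
  refine ⟨Affine.Point.map (Algebra.ofId F (AlgebraicClosure F)), Affine.Point.map_injective _,
    ?_, ?_⟩
  · intro σ P
    rcases P with _ | ⟨x, y, h⟩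
    · rfl
    · exact (Affine.Point.some.injEq _ _ _ _ _ _).mpr ⟨σ.commutes x, σ.commutes y⟩
  · intro P hP
    rcases P with _ | ⟨X, Y, h⟩
    · exact ⟨0, rfl⟩
    · have hfix : ∀ σ : Gal F, σ X = X ∧ σ Y = Y := by
        intro σ
        exact (Affine.Point.some.injEq _ _ _ _ _ _).mp (hP σ)
      obtain ⟨x, hx⟩ := Pool.Agent.TH841.SH.fix_mem (K := F) X (fun τ => (hfix τ).1)
      obtain ⟨y, hy⟩ := Pool.Agent.TH841.SH.fix_mem (K := F) Y (fun τ => (hfix τ).2)
      subst hx hy
      have hn : (W.baseChange F).toAffine.Nonsingular x y :=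
        (Affine.baseChange_nonsingular W (f := Algebra.ofId F (AlgebraicClosure F))
          (Algebra.ofId F (AlgebraicClosure F)).injective x y).mp h
      exact ⟨.some x y hn, rfl⟩

/-- the coordinates of a Selmer cocycle are cocycles of `Ш` -/
lemma coord_sha {W : WeierstrassCurve F} {c : Coch2 W} (hc : IsSelV W c) (n : ℕ) :
    (fun σ => c σ n : Coch W) ∈ Pool.Agent.TH841.NF.D.shaCoc W := by
  obtain ⟨⟨h1, h2, h3⟩, h4, h5⟩ := hc
  refine ⟨⟨h1 n, fun σ τ => h3 σ τ n⟩, fun v ι => ?_, fun v ι => ?_⟩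
  · obtain ⟨Q, -, hQ⟩ := h4 v ι
    exact ⟨Q n, fun τ σ hσ => hQ τ σ hσ n⟩
  · obtain ⟨Q, -, hQ⟩ := h5 v ι
    exact ⟨Q n, fun τ σ hσ => hQ τ σ hσ n⟩

/-- a continuous cocycle with values in `V₂` is bounded in every coordinate -/
lemma coord_tor {W : WeierstrassCurve F} {c : Coch2 W} (hc : IsCocV W c) (n : ℕ) :
    ∃ K : ℕ, ∀ σ, (2 ^ K : ℕ) • c σ n = 0 := by
  have hfin : (Set.range fun σ => c σ n).Finite := (hc.1 n).range_finite
  choose m hm using fun σ => (hc.2.1 σ n).2
  have hex : ∀ y ∈ Set.range (fun σ => c σ n), ∃ k : ℕ, (2 ^ k : ℕ) • y = 0 := by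
    rintro y ⟨σ, rfl⟩
    exact ⟨m σ, hm σ⟩
  choose! k hk using hex
  obtain ⟨K, hK⟩ := (hfin.image k).bddAbove
  refine ⟨K, fun σ => ?_⟩
  have h1 := hk _ (Set.mem_range_self σ)
  have h2 : k (c σ n) ≤ K := hK ⟨_, Set.mem_range_self σ, rfl⟩
  rw [← Nat.sub_add_cancel h2, pow_add, mul_smul, h1, smul_zero]

/-- **The Bloch–Kato Selmer group is zero**, if there are finitely many points and the 2-primary part
of `Ш` has bounded exponent. -/
theorem h1f_zero {W : WeierstrassCurve F} (hfin : Finite W.toAffine.Point) (m : ℕ)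
    (hS : ∀ (k : ℕ) (x : Pool.Agent.TH841.NF.D.Sha W), (2 ^ k : ℕ) • x = 0 →
      (2 ^ m : ℕ) • x = 0) : ∀ x : H1f W, x = 0 := by
  have hFix : Finite (Fix fun σ : Gal F => act W σ.toAlgHom) := by
    obtain ⟨j, -, -, hj⟩ := exists_rat W
    refine Finite.of_surjective (α := {q : W.toAffine.Point // ∀ σ : Gal F,
      act W σ.toAlgHom (j q) = j q}) (fun q => ⟨j q.1, q.2⟩) (fun P => ?_)
    obtain ⟨q, hq⟩ := hj P.1 P.2
    refine ⟨⟨q, ?_⟩, Subtype.ext hq⟩
    rw [hq]
    exact P.2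
  intro x
  obtain ⟨⟨c, hc⟩, rfl⟩ := QuotientAddGroup.mk_surjective x
  refine (QuotientAddGroup.eq_zero_iff _).2 ?_
  rw [AddSubgroup.mem_addSubgroupOf]
  have hc' : IsSelV W c := hc
  have hpow : ∀ (σ : Gal F) (n k : ℕ), (2 ^ k : ℕ) • c σ (n + k) = c σ n := by
    intro σ n k
    induction k with
    | zero => simp
    | succ k ih =>
      rw [pow_succ, mul_smul, two_nsmul, ← add_assoc, (hc'.1.2.1 σ (n + k)).1, ih]
  have hcob : ∀ n, ∃ P, ∀ σ : Gal F, c σ n = act W σ.toAlgHom P - P := by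
    intro n
    obtain ⟨K, hK⟩ := coord_tor hc'.1 (n + m)
    obtain ⟨f, hf⟩ : ∃ f : Pool.Agent.TH841.NF.D.shaCoc W, f.1 = fun σ => c σ (n + m) :=
      ⟨⟨_, coord_sha hc' (n + m)⟩, rfl⟩
    have h0 : (2 ^ K : ℕ) • f = 0 := by
      apply Subtype.ext
      rw [AddSubgroup.coe_nsmul, hf]
      funext σ
      exact hK σ
    have h1 : (2 ^ K : ℕ) • (QuotientAddGroup.mk f : Pool.Agent.TH841.NF.D.Sha W) = 0 := by
      rw [← QuotientAddGroup.mk_nsmul, h0]
      rfl
    have h2 : (QuotientAddGroup.mk ((2 ^ m : ℕ) • f) : Pool.Agent.TH841.NF.D.Sha W) = 0 := by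
      rw [QuotientAddGroup.mk_nsmul]
      exact hS K _ h1
    have h3 := (QuotientAddGroup.eq_zero_iff _).1 h2
    rw [AddSubgroup.mem_addSubgroupOf] at h3
    obtain ⟨P, hP⟩ := h3
    refine ⟨P, fun σ => ?_⟩
    rw [← hP σ, AddSubgroup.coe_nsmul, hf]
    exact (hpow σ n m).symm
  obtain ⟨x, hx1, hx2⟩ := lift (fun σ : Gal F => act W σ.toAlgHom) c
    (fun σ n => (hc'.1.2.1 σ n).1) (fun n => coord_tor hc'.1 n) hcob
  exact ⟨x, hx1, hx2⟩

end Pool.Agent.Y667.BKK
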